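import Pool.Agent.Helper76.GP.F1

/-!
# GP-F1: one good end point (owner: helper76)
-/

set_option autoImplicit false

namespace Pool.Agent.Helper51.GP

open MeasureTheory ProbabilityTheory Filter Pool.Agent.Helper79.GR Pool.Agent.Helper79.GQ
open Pool.Agent.Helper51.NP

variable {Ω : Type*} [MeasurableSpace Ω] {P : Measure Ω} {d : ℕ} {X : ℕ → Edge d → Ω → ℝ}
  {ν : ℕ → Measure ℝ} {δ : ℕ → ℝ} {a K s : ℝ} {m C : ℕ} {u : F d → ℝ} {v : F d}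
  {h : F d →L[ℝ] ℝ}

theorem good_point (hF : Fam P X ν δ a m K u) (hv : h v = 1) (hC : 1 ≤ C) :
    ∃ K₁ : ℕ, 1 ≤ K₁ ∧ ∃ L₀ : ℕ, ∀ L : ℕ, L₀ ≤ L → ∀ (l D E : ℝ) (g : F d →L[ℝ] ℝ),
      Pack P X u v h C L (bb m L) l D E g → ∀ κ : ℝ, 1 ≤ κ → κ ≤ L → ∃ q : V d,
        κ / (2 * (l * E)) ≤ h (rv q) ∧ h (rv q) ≤ 2 * κ / (l * E) ∧
        tr v h (rv q) ≤ (bb m L : ℕ) ^ K₁ / l ∧
        Real.exp (κ * D / E) - 1 / 4 ≤
          (bb m L : ℕ) ^ K₁ * (Z P (X (bb m L)) l 0 q * Real.exp (l * g (rv q))) :=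
  Pool.Agent.Helper76.GP.good_point hF hv hC

end Pool.Agent.Helper51.GP
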