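import Pool.Agent.Helper51.GP.F1
import Pool.Agent.Helper32.NP.TO

/-!
# GP-F2: the geodesic stays in a tube (owners: helper32 `Z_sub_Zc_le`, helper99 `tube_moments`)

For `z` with `n1 z ≤ K' n` (`K'` a constant: `a K' > 4 K nr`-bound of `q / n`) use `Pack.z2`; for the
others `Z_le` (`Z(2 l) ≤ 2 exp (- 2 l a n1 z)`) and `g q ≤ K nr q`.
-/

set_option autoImplicit false

namespace Pool.Agent.Helper51.GP

open MeasureTheory ProbabilityTheory Filter Pool.Agent.Helper79.GR Pool.Agent.Helper79.GQ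
open Pool.Agent.Helper51.NP

variable {Ω : Type*} [MeasurableSpace Ω] {P : Measure Ω} {d : ℕ} {X : ℕ → Edge d → Ω → ℝ}
  {ν : ℕ → Measure ℝ} {δ : ℕ → ℝ} {a K s : ℝ} {m C : ℕ} {u : F d → ℝ} {v : F d}
  {h : F d →L[ℝ] ℝ}

theorem Z_sub_Zc_le {X : Edge d → Ω → ℝ} {ν : Measure ℝ} {δ b B : ℝ} (hE : Env P X ν δ b)
    (hB : b ≤ B) (l W N : ℝ) (hl : 0 < l) (q : V d) :
    ENNReal.ofReal (Z P X l 0 q) ≤ ENNReal.ofReal (Zc P X (tub v h W N) B l 0 q) +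
      ∑' z : {z : V d // N < n1 z ∨ W < tr v h (rv z)},
        ENNReal.ofReal (√(Z P X (2 * l) 0 z.1) * √(Z P X (2 * l) z.1 q)) := by
  refine Pool.Agent.Helper32.NP.Z_le_Zc_tsum hE hB hl.le (tub v h W N)
    {z : V d | N < n1 z ∨ W < tr v h (rv z)} (fun e he => ?_) 0 q
  by_contra hcon
  refine he fun z hz => ?_
  by_contra hz'
  refine hcon ⟨z, hz, ?_⟩
  rcases not_and_or.1 hz' with h1 | h1
  · exact Or.inr (not_le.1 h1)
  · exact Or.inl (not_le.1 h1)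

theorem tube_moments (hF : Fam P X ν δ a m K u) (hv : h v = 1) (hC : 1 ≤ C) :
    ∃ K₁ : ℕ, 1 ≤ K₁ ∧ ∃ L₀ : ℕ, ∀ L : ℕ, L₀ ≤ L → ∀ (l D E : ℝ) (g : F d →L[ℝ] ℝ),
      Pack P X u v h C L (bb m L) l D E g → ∀ κ : ℝ, 1 ≤ κ → κ ≤ L → ∃ q : V d,
        κ / (2 * (l * E)) ≤ h (rv q) ∧ h (rv q) ≤ 2 * κ / (l * E) ∧
        tr v h (rv q) ≤ (bb m L : ℕ) ^ K₁ / l ∧
        Real.exp (κ * D / E) - 1 / 2 ≤ (bb m L : ℕ) ^ K₁ *
          (Zc P (X (bb m L)) (tub v h ((bb m L : ℕ) ^ K₁ / l) (K₁ * κ / (l * E))) (bb m L) l 0 q *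
            Real.exp (l * g (rv q))) ∧
        Z P (X (bb m L)) l 0 q * Real.exp (l * g (rv q)) ≤ Real.exp (K₁ * κ) ∧
        Z P (X (bb m L)) (2 * l) 0 q * Real.exp (2 * l * g (rv q)) ≤ Real.exp (K₁ * κ) :=
  Pool.Agent.Helper32.NP.tube_moments hF hv hC

end Pool.Agent.Helper51.GP
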