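import Pool.Agent.Helper51.GP.B
import Pool.Agent.Helper59.PB.G1

/-!
# GP-G1: disorder is relevant on a finite set of edges (owner: helper59)

As `NP/G1`, weight `b` off `S`; number of edges off `S` at most `T / b`, in the mean at most
`2 K n1 q / b ≤ n1 q / 2`; the number of edges is at least `n1 q` and the proportion of light edges
is at most `1 / 4` if `ν (-∞, β) ≤ p`, `p` small (depends on `d` only).
-/

set_option autoImplicit false

namespace Pool.Agent.Helper51.GP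

open MeasureTheory ProbabilityTheory Filter Pool.Agent.Helper79.GR Pool.Agent.Helper79.GQ
open Pool.Agent.Helper51.NP

variable {Ω : Type*} [MeasurableSpace Ω] {P : Measure Ω} {d : ℕ} {X : ℕ → Edge d → Ω → ℝ}
  {ν : ℕ → Measure ℝ} {δ : ℕ → ℝ} {a K s : ℝ} {m C : ℕ} {u : F d → ℝ} {v : F d}
  {h : F d →L[ℝ] ℝ}

open Pool.Agent.Helper59.PB Pool.Agent.Helper59.PG in
/-- one environment; the constant depends only on `α`, `β`, the mass `c'` and `d` -/
private theorem gibbs_one {X : Edge d → Ω → ℝ} {ν : Measure ℝ} {δ : ℝ} {b : ℕ}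
    (hd : 1 ≤ d) (hE : Env P X ν δ b)
    {α β c' c₁ : ℝ} (hαβ : α < β) (hc' : 0 < c') (h1 : c' ≤ ν.real (Set.Iic α))
    (h2 : c' ≤ ν.real (Set.Ici β))
    (h3 : ν.real (Set.Iio β) ≤ min (1 / 2) (((1 / 4 : ℝ) / (4 * d)) ^ (1 / 4 : ℝ)⁻¹))
    (hc0 : 0 < c₁) (hc1 : c₁ ≤ 1 / 8) (hc2 : c₁ * (1 / c' + 2) ^ 2 ≤ (β - α) / 16)
    (S : Set (Edge d)) (q : V d) (l : ℝ) (hS : S.Finite) (hl0 : 0 < l) (hl1 : l ≤ 1)
    (hq : 2 ≤ n1 q) (hmc : mc P X S b 0 q ≤ (b : ℝ) / 2 * n1 q) :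
    -(l * mc P X S b 0 q) + c₁ * (β - α) / 16 * (l * n1 q) ^ 2 / S.ncard ≤
      Real.log (Zc P X S b l 0 q) := by
  classical
  have hprob := hE.prob
  have hI := iid_of_env hE
  have hνp := hI.nu_prob hd
  have hab := a_le_b hE hd
  have hb0 : (0 : ℝ) < b := hE.apos.trans_le hab
  have hcompl := nu_compl hE hd
  have hν1 : ν (Set.Ioc 0 (b : ℝ))ᶜ = 0 := by
    refine measure_mono_null (Set.compl_subset_compl.2 fun t ht => ?_) hcompl
    exact ⟨hE.apos.trans_le ht.1, ht.2⟩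
  have hIic : ν (Set.Iic 0) = 0 := by
    refine measure_mono_null (fun t (ht : t ≤ 0) => ?_) hν1
    intro ht'
    exact absurd ht'.1 (not_lt.2 ht)
  have hα' : ν.real (Set.Iic α) ≤ ν.real (Set.Ioc 0 α) := by
    have e1 : Set.Iic α ⊆ Set.Ioc 0 α ∪ Set.Iic 0 := by
      intro t ht
      by_cases h : 0 < t
      · exact Or.inl ⟨h, ht⟩
      · exact Or.inr (not_lt.1 h)
    rw [Measure.real, Measure.real]
    refine ENNReal.toReal_mono (measure_ne_top _ _) ?_
    refine (measure_mono e1).trans ((measure_union_le _ _).trans ?_)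
    rw [hIic, add_zero]
  have hβb : β ≤ b := by
    by_contra hc
    push Not at hc
    have e1 : ν (Set.Ici β) = 0 := by
      refine measure_mono_null (fun t (ht : β ≤ t) => ?_) hν1
      intro ht'
      exact absurd ht'.2 (not_le.2 (hc.trans_le ht))
    rw [Measure.real, e1, ENNReal.toReal_zero] at h2
    linarith
  have hβ' : 1 / 2 ≤ ν.real (Set.Ici β) := by
    have e1 : Set.Ici β = (Set.Iio β)ᶜ := (Set.compl_Iio).symm
    rw [e1, probReal_compl_eq_one_sub measurableSet_Iio]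
    linarith [h3.trans (min_le_left _ _)]
  have hα0 : c' ≤ ν.real (Set.Ioc 0 α) := h1.trans hα'
  have hpei := peierls hI hd (κ := 1 / 4) (t := 1 / 4) (by norm_num) (by norm_num) (by norm_num)
    (h3.trans (min_le_right _ _)) 0 2
  have hbad : (Measure.pi fun _ : hS.toFinset => ν) (badR hS.toFinset β (1 / 4) 2) ≤
      ENNReal.ofReal (1 / 8) := by
    refine Pool.Agent.Helper59.PB.measure_badR hI hS.toFinset β (1 / 4) 2 ?_
    have e1 : ENNReal.ofReal (2 * (1 / 4) ^ 2) = ENNReal.ofReal (1 / 8) := by norm_num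
    rw [e1] at hpei
    exact hpei
  have hcard : (S.ncard : ℝ) = (hS.toFinset.card : ℝ) := by
    rw [Set.ncard_eq_toFinset_card S hS]
  have hfm : Measurable fun x : hS.toFinset → ℝ => T (ext (b : ℝ) hS.toFinset x) 0 q :=
    (measurable_T_cfg 0 q).comp (measurable_ext _ _)
  have hmc' : mc P X S b 0 q =
      ∫ x, T (ext (b : ℝ) hS.toFinset x) 0 q ∂(Measure.pi fun _ : hS.toFinset => ν) := by
    rw [← Pool.Agent.Helper59.PB.integral_restrict hI hS.toFinset hfm]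
    unfold mc
    refine integral_congr_ae (ae_of_all _ fun ω => ?_)
    show T _ 0 q = T _ 0 q
    rw [cut_toFinset hS, cut_eq_ext]
    rfl
  have hZc : Zc P X S b l 0 q =
      ∫ x, Real.exp (-(l * T (ext (b : ℝ) hS.toFinset x) 0 q))
        ∂(Measure.pi fun _ : hS.toFinset => ν) := by
    rw [← Pool.Agent.Helper59.PB.integral_restrict hI hS.toFinset
      (F := fun x => Real.exp (-(l * T (ext (b : ℝ) hS.toFinset x) 0 q)))
      (Real.measurable_exp.comp (hfm.const_mul l).neg)]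
    unfold Zc
    refine integral_congr_ae (ae_of_all _ fun ω => ?_)
    show Real.exp (-(l * T _ 0 q)) = Real.exp (-(l * T _ 0 q))
    rw [cut_toFinset hS, cut_eq_ext]
    rfl
  have hK : (1 / ν.real (Set.Ioc 0 α) + 1 / ν.real (Set.Ici β)) ^ 2 ≤ (1 / c' + 2) ^ 2 := by
    have e1 : 1 / ν.real (Set.Ioc 0 α) ≤ 1 / c' := one_div_le_one_div_of_le hc' hα0
    have e2 : 1 / ν.real (Set.Ici β) ≤ 2 := by
      rw [div_le_iff₀ (lt_of_lt_of_le (by norm_num) hβ')]
      linarith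
    have e3 : 0 ≤ 1 / ν.real (Set.Ioc 0 α) := by positivity
    have e4 : 0 ≤ 1 / ν.real (Set.Ici β) := by positivity
    exact pow_le_pow_left₀ (add_nonneg e3 e4) (add_le_add e1 e2) 2
  rw [hmc'] at hmc ⊢
  rw [hZc, hcard]
  exact gibbs_fin0 (ν := ν) hb0 le_rfl hν1 hαβ hβb (hc'.trans_le hα0) hβ' hK hc0 hc1 hc2
    hS.toFinset hbad q (by push_cast; linarith) (by linarith) hl0 hl1 hmc

theorem gibbs (hF : Fam P X ν δ a m K u) : ∃ (c : ℝ) (b₁ : ℕ), 0 < c ∧ 1 ≤ b₁ ∧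
    ∀ (b : ℕ) (S : Set (Edge d)) (q : V d) (l : ℝ), b₁ ≤ b → S.Finite → 0 < l → l ≤ 1 →
      1 / c ≤ n1 q → mc P (X b) S b 0 q ≤ 2 * K * n1 q →
      -(l * mc P (X b) S b 0 q) + c * (l * n1 q) ^ 2 / S.ncard ≤
        Real.log (Zc P (X b) S b l 0 q) := by
  rcases Nat.eq_zero_or_pos d with hd0 | hd
  · subst hd0
    refine ⟨1, 1, one_pos, le_rfl, ?_⟩
    intro b S q l hb hS hl0 hl1 hq1
    exfalso
    have h0 : n1 q = 0 := by
      unfold n1
      simp
    rw [h0] at hq1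
    norm_num at hq1
  have hd0 : (0 : ℝ) < d := by exact_mod_cast hd
  obtain ⟨α, β, c', b₁, hαβ, hc', hmass⟩ := hF.mass
    (min (1 / 2) (((1 / 4 : ℝ) / (4 * d)) ^ (1 / 4 : ℝ)⁻¹)) (lt_min (by norm_num) (by positivity))
  obtain ⟨b₂, hb₂⟩ := exists_nat_ge (4 * K)
  set c₁ := min (1 / 8) ((β - α) / (16 * (1 / c' + 2) ^ 2)) with hc₁
  have hba : 0 < β - α := by linarith
  have hc0 : 0 < c₁ := lt_min (by norm_num) (by positivity)
  have hc2 : c₁ * (1 / c' + 2) ^ 2 ≤ (β - α) / 16 := by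
    have h1 : c₁ ≤ (β - α) / (16 * (1 / c' + 2) ^ 2) := min_le_right _ _
    have h2 := mul_le_mul_of_nonneg_right h1 (by positivity : 0 ≤ (1 / c' + 2) ^ 2)
    have h3 : (β - α) / (16 * (1 / c' + 2) ^ 2) * (1 / c' + 2) ^ 2 = (β - α) / 16 := by
      field_simp
    rwa [h3] at h2
  set c := min (c₁ * (β - α) / 16) (1 / 2) with hc
  have hcpos : 0 < c := lt_min (by positivity) (by norm_num)
  have hcinv : 2 ≤ 1 / c := by
    rw [le_div_iff₀ hcpos]
    have h1 : c ≤ 1 / 2 := min_le_right _ _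
    linarith
  refine ⟨c, b₁ + b₂ + 1, hcpos, by omega, ?_⟩
  intro b S q l hb hS hl0 hl1 hq1 hmc
  obtain ⟨h1, h2, h3⟩ := hmass b (by omega)
  have hq2 : 2 ≤ n1 q := hcinv.trans hq1
  have hb4 : 4 * K ≤ b := by
    refine hb₂.trans ?_
    exact_mod_cast (by omega : b₂ ≤ b)
  have hmain := gibbs_one hd (hF.env b (by omega)) hαβ hc' h1 h2 h3 hc0 (min_le_left _ _) hc2
    S q l hS hl0 hl1 hq2 (hmc.trans (mul_le_mul_of_nonneg_right (by linarith) (by linarith)))
  refine le_trans ?_ hmain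
  have h8 : c * (l * n1 q) ^ 2 / S.ncard ≤ c₁ * (β - α) / 16 * (l * n1 q) ^ 2 / S.ncard := by
    refine div_le_div_of_nonneg_right ?_ (Nat.cast_nonneg _)
    exact mul_le_mul_of_nonneg_right (min_le_left _ _) (sq_nonneg _)
  linarith

end Pool.Agent.Helper51.GP
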