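import Pool.Agent.Helper51.NP.A
import Pool.Agent.Helper19.PG.Vert

/-!
# Project GP (MP_13b103_pr, general laws): the limit shape is not a polytope. Definitions

Second edition of `Pool/Agent/Helper51/NP`: a family `X b` of environments with weights in
`[δ b, b]`; the constants are polynomials in `b` and do not depend on `δ b`; `u` is a norm which is
above all the time constants `uu P (X b)` and (up to `K b`) below the means of the passage times
over distances up to `exp (b ^ (1 / m))`.  Scale `L`: `b = L ^ (m + 1)`, `l` between `4 ^ (-L)` and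
`2 ^ (-L)`, cells of side `w = ⌈1 / (l b)⌉₊`.
-/

set_option autoImplicit false

namespace Pool.Agent.Helper51.GP

open MeasureTheory ProbabilityTheory Filter Pool.Agent.Helper79.GR Pool.Agent.Helper79.GQ
open Pool.Agent.Helper51.NP

section

variable {Ω : Type*} [MeasurableSpace Ω] {d : ℕ}

/-- long paths from `0` have a cost of at least `a` times their length, with high probability -/
structure Reg (P : Measure Ω) (X : Edge d → Ω → ℝ) (a : ℝ) : Prop where
  apos : 0 < a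
  ale : a ≤ 1
  peierls : ∀ n : ℕ, P {ω | ∃ w : List (St d), n ≤ w.length ∧ (eds 0 w).Nodup ∧
    cost (cf X ω) 0 w ≤ a * w.length} ≤ ENNReal.ofReal (Real.exp (-n))

/-- the family of the truncated environments -/
structure Fam (P : Measure Ω) (X : ℕ → Edge d → Ω → ℝ) (ν : ℕ → Measure ℝ) (δ : ℕ → ℝ)
    (a : ℝ) (m : ℕ) (K : ℝ) (u : F d → ℝ) : Prop where
  env : ∀ b, 1 ≤ b → Env P (X b) (ν b) (δ b) b
  reg : ∀ b, 1 ≤ b → Reg P (X b) a
  mass : ∀ p : ℝ, 0 < p → ∃ (α β c : ℝ) (b₁ : ℕ), α < β ∧ 0 < c ∧ ∀ b, b₁ ≤ b →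
    c ≤ (ν b).real (Set.Iic α) ∧ c ≤ (ν b).real (Set.Ici β) ∧ (ν b).real (Set.Iio β) ≤ p
  nrm : Nrm a K u
  up : ∀ b, 1 ≤ b → ∀ x, uu P (X b) x ≤ u x
  low : ∀ L b : ℕ, 1 ≤ L → L ^ m ≤ b → ∀ x : V d, n1 x ≤ Real.exp L →
    u (rv x) ≤ mm P (X b) x + K * b

/-- the side of the cells -/
noncomputable def wd (l : ℝ) (b : ℕ) : ℕ := ⌈1 / (l * b)⌉₊

/-- the truncation at the scale `L` -/
def bb (m L : ℕ) : ℕ := L ^ (m + 1)

/-- the constant of the lower tail inequality -/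
noncomputable def hr (a : ℝ) : ℝ := 2 / a

/-- a good pair (inverse temperature `l`, tilt `g`) at the logarithmic scale `L`, with the
truncation at `b` -/
structure Pack (P : Measure Ω) (X : ℕ → Edge d → Ω → ℝ) (u : F d → ℝ) (v : F d)
    (h : F d →L[ℝ] ℝ) (C : ℕ) (L b : ℕ) (l D E : ℝ) (g : F d →L[ℝ] ℝ) : Prop where
  lpos : 0 < l
  lup : l ≤ (1 / 2) ^ L
  llo : (1 / 4) ^ L ≤ l
  D0 : 0 ≤ D
  DE : E = D + l ^ (2 * d + 2)
  EC : E ≤ b ^ C * l
  gle : ∀ x, g x ≤ u x
  gh : ∀ x, |g x - h x| ≤ C * tr v h x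
  z1 : ∀ q : V d, Z P (X b) l 0 q * Real.exp (l * g (rv q)) ≤
    Real.exp (l * (C * E * max (h (rv q)) 0 - tr v h (rv q) / (C * L)))
  z2 : ∀ q : V d, Z P (X b) (2 * l) 0 q * Real.exp (2 * l * g (rv q)) ≤
    Real.exp (2 * l * (C * E * max (h (rv q)) 0 - tr v h (rv q) / (C * L)))
  low : ∀ n : ℝ, C / l ≤ n → ENNReal.ofReal (Real.exp (l * n * D)) ≤ ENNReal.ofReal C *
    ∑' q : {q : V d // |h (rv (wd l b • q)) - n| ≤ C * wd l b},
      ENNReal.ofReal (Z P (X b) l 0 (wd l b • q.1) * Real.exp (l * g (rv (wd l b • q.1))))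

end

end Pool.Agent.Helper51.GP
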