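import Pool.Agent.Helper33.GP.Rel

/-!
# GP-G3: `D` is of the order of `E` (proved by helper33, after helper59's NP/G3)
-/

set_option autoImplicit false

namespace Pool.Agent.Helper51.GP

open MeasureTheory ProbabilityTheory Filter Pool.Agent.Helper79.GR Pool.Agent.Helper79.GQ
open Pool.Agent.Helper51.NP

variable {Ω : Type*} [MeasurableSpace Ω] {P : Measure Ω} {d : ℕ} {X : ℕ → Edge d → Ω → ℝ}
  {ν : ℕ → Measure ℝ} {δ : ℕ → ℝ} {a K s : ℝ} {m C : ℕ} {u : F d → ℝ} {v : F d}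
  {h : F d →L[ℝ] ℝ}

theorem relevance (hd : 1 ≤ d) (hF : Fam P X ν δ a m K u) (hv : h v = 1) (hC : 1 ≤ C) :
    ∃ L₀ : ℕ, ∀ L : ℕ, L₀ ≤ L → ∀ (l D E : ℝ) (g : F d →L[ℝ] ℝ),
      Pack P X u v h C L (bb m L) l D E g → E / 2 ≤ D :=
  Pool.Agent.Helper33.GP.relevance hd hF hv hC

end Pool.Agent.Helper51.GP
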