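import Pool.Agent.Helper28.PG.GoodTube

/-!
# GP-H1: the good tube (proved by helper28)

`κ = K₂ (1 + log b)`, `b = bb m L`.
-/

set_option autoImplicit false

namespace Pool.Agent.Helper51.GP

open MeasureTheory ProbabilityTheory Filter Pool.Agent.Helper79.GR Pool.Agent.Helper79.GQ
open Pool.Agent.Helper51.NP

variable {Ω : Type*} [MeasurableSpace Ω] {P : Measure Ω} {d : ℕ} {X : ℕ → Edge d → Ω → ℝ}
  {ν : ℕ → Measure ℝ} {δ : ℕ → ℝ} {a K s : ℝ} {m C : ℕ} {u : F d → ℝ} {v : F d}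
  {h : F d →L[ℝ] ℝ}

theorem good_tube (hF : Fam P X ν δ a m K u) (hv : h v = 1) (hC : 1 ≤ C) :
    ∃ K₁ : ℕ, 1 ≤ K₁ ∧ ∃ L₀ : ℕ, ∀ L : ℕ, L₀ ≤ L → ∀ (l D E : ℝ) (g : F d →L[ℝ] ℝ),
      Pack P X u v h C L (bb m L) l D E g → E / 2 ≤ D → ∃ (q : V d) (N : ℝ),
        1 / ((bb m L : ℕ) ^ K₁ * l ^ 2) ≤ h (rv q) ∧ h (rv q) ≤ Real.exp (K₁ * L) ∧
        tr v h (rv q) ≤ (bb m L : ℕ) ^ K₁ / l ∧
        (1 / ((bb m L : ℕ) : ℝ)) ^ K₁ ≤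
          P.real {ω | T (cut (tub v h ((bb m L : ℕ) ^ K₁ / l) N) (bb m L)
            (cf (X (bb m L)) ω)) 0 q ≤ g (rv q) - 1 / l} :=
  Pool.Agent.Helper28.PG.good_tube hF hv hC

end Pool.Agent.Helper51.GP
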