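import Pool.Agent.Helper51.NP.F0
import Pool.Agent.Helper51.GP.Defs

/-!
# GP-F0: sums over a slab (owner: helper17)
-/

set_option autoImplicit false

namespace Pool.Agent.Helper51.GP

open MeasureTheory ProbabilityTheory Filter Pool.Agent.Helper79.GR Pool.Agent.Helper79.GQ
open Pool.Agent.Helper51.NP

theorem sum_slab {d : ℕ} (v : F d) (h : F d →L[ℝ] ℝ) (hv : h v = 1) (C : ℝ) (hC : 0 ≤ C) :
    ∃ K : ℝ, 1 ≤ K ∧ ∀ (w : ℕ) (θ n : ℝ), 1 ≤ w → 0 < θ → θ * w ≤ 1 →
      ∑' q : {q : V d // |h (rv (w • q)) - n| ≤ C * w},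
        ENNReal.ofReal (Real.exp (-(θ * tr v h (rv (w • q.1))))) ≤
        ENNReal.ofReal (K / (θ * w) ^ d) := by
  have hnv : 0 ≤ nr v := Finset.sum_nonneg fun _ _ => abs_nonneg _
  refine ⟨8 ^ d * Real.exp (C * nr v), ?_, ?_⟩
  · have h1 : (1 : ℝ) ≤ 8 ^ d := one_le_pow₀ (by norm_num)
    have h2 : 1 ≤ Real.exp (C * nr v) := Real.one_le_exp (by positivity)
    nlinarith
  intro W θ n hW hθ hθW
  have hWpos : (0 : ℝ) < W := by exact_mod_cast hW
  set δ : ℝ := θ * W with hδ0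
  have hδ : 0 < δ := by positivity
  set y : F d := (n / (W : ℝ)) • v with hy
  have hrv : ∀ q : V d, rv (W • q) = (W : ℝ) • rv q := by
    intro q
    funext i
    simp [rv]
  have hnr : ∀ (t : ℝ) (x : F d), 0 ≤ t → nr (t • x) = t * nr x := by
    intro t x ht
    unfold nr
    rw [Finset.mul_sum]
    refine Finset.sum_congr rfl fun i _ => ?_
    rw [Pi.smul_apply, smul_eq_mul, abs_mul, abs_of_nonneg ht]
  have hadd : ∀ x z : F d, nr (x + z) ≤ nr x + nr z := by
    intro x z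
    unfold nr
    rw [← Finset.sum_add_distrib]
    exact Finset.sum_le_sum fun i _ => abs_add_le _ _
  have hnrabs : ∀ (t : ℝ) (x : F d), nr (t • x) = |t| * nr x := by
    intro t x
    unfold nr
    rw [Finset.mul_sum]
    refine Finset.sum_congr rfl fun i _ => ?_
    rw [Pi.smul_apply, smul_eq_mul, abs_mul]
  have key : ∀ q : {q : V d // |h (rv (W • q)) - n| ≤ C * W},
      ENNReal.ofReal (Real.exp (-(θ * tr v h (rv (W • q.1))))) ≤
      ENNReal.ofReal (Real.exp (C * nr v)) *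
        ENNReal.ofReal (Real.exp (-(δ * nr (rv q.1 - y)))) := by
    intro q
    rw [← ENNReal.ofReal_mul (Real.exp_pos _).le, ← Real.exp_add]
    refine ENNReal.ofReal_le_ofReal (Real.exp_le_exp.2 ?_)
    set x : F d := rv (W • q.1) with hx
    have h1 : nr (x - n • v) ≤ tr v h x + C * W * nr v := by
      have h2 : x - n • v = (x - h x • v) + (h x - n) • v := by
        rw [sub_smul]
        abel
      rw [h2]
      refine (hadd _ _).trans ?_
      rw [hnrabs (h x - n) v]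
      have h3 : |h x - n| * nr v ≤ C * W * nr v := mul_le_mul_of_nonneg_right q.2 hnv
      unfold tr
      linarith
    have h4 : nr (x - n • v) = W * nr (rv q.1 - y) := by
      rw [← hnr (W : ℝ) _ hWpos.le]
      congr 1
      rw [hx, hrv, smul_sub, hy, smul_smul, mul_div_cancel₀ _ hWpos.ne']
    rw [h4] at h1
    have h8 := mul_le_mul_of_nonneg_left h1 hθ.le
    have h9 : θ * (W * nr (rv q.1 - y)) = δ * nr (rv q.1 - y) := by
      rw [hδ0]
      ring
    have h10 : θ * (tr v h x + C * W * nr v) = θ * tr v h x + δ * (C * nr v) := by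
      rw [hδ0]
      ring
    have h12 : δ * (C * nr v) ≤ C * nr v := by
      have : 0 ≤ C * nr v := by positivity
      nlinarith
    linarith
  calc ∑' q : {q : V d // |h (rv (W • q)) - n| ≤ C * W},
        ENNReal.ofReal (Real.exp (-(θ * tr v h (rv (W • q.1)))))
      ≤ ∑' q : {q : V d // |h (rv (W • q)) - n| ≤ C * W},
        ENNReal.ofReal (Real.exp (C * nr v)) *
        ENNReal.ofReal (Real.exp (-(δ * nr (rv q.1 - y)))) := ENNReal.tsum_le_tsum key
    _ = ENNReal.ofReal (Real.exp (C * nr v)) * ∑' q : {q : V d // |h (rv (W • q)) - n| ≤ C * W},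
        ENNReal.ofReal (Real.exp (-(δ * nr (rv q.1 - y)))) := ENNReal.tsum_mul_left
    _ ≤ ENNReal.ofReal (Real.exp (C * nr v)) * ∑' q : V d,
        ENNReal.ofReal (Real.exp (-(δ * nr (rv q - y)))) := by
        gcongr
        exact ENNReal.tsum_comp_le_tsum_of_injective Subtype.val_injective
          (fun q : V d => ENNReal.ofReal (Real.exp (-(δ * nr (rv q - y)))))
    _ ≤ ENNReal.ofReal (Real.exp (C * nr v)) * ENNReal.ofReal ((8 / δ) ^ d) := by
        gcongr
        exact sum_exp_nr d δ hδ hθW y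
    _ = ENNReal.ofReal (8 ^ d * Real.exp (C * nr v) / δ ^ d) := by
        rw [← ENNReal.ofReal_mul (Real.exp_pos _).le]
        congr 1
        rw [div_pow]
        ring

/-- powers of `bb m L` are beaten by `2 ^ (- L)` -/
theorem bb_small (m N : ℕ) (ε : ℝ) (hε : 0 < ε) : ∃ L₀ : ℕ, ∀ L : ℕ, L₀ ≤ L →
    ((bb m L : ℕ) : ℝ) ^ N * (1 / 2) ^ L ≤ ε := by
  have h1 := tendsto_pow_const_mul_const_pow_of_lt_one ((m + 1) * N) (r := (1 / 2 : ℝ))
    (by norm_num) (by norm_num)
  have h2 := h1.eventually (ge_mem_nhds hε)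
  obtain ⟨L₀, hL⟩ := eventually_atTop.1 h2
  refine ⟨L₀, fun L hLL => ?_⟩
  have h3 := hL L hLL
  unfold bb
  rw [Nat.cast_pow, ← pow_mul]
  exact h3

/-- every constant and every power of `L` is below a power of `bb m L` -/
theorem le_bb (m : ℕ) (c : ℝ) : ∃ L₀ : ℕ, ∀ L : ℕ, L₀ ≤ L → c ≤ (bb m L : ℕ) ∧ c * L ≤ (L : ℝ) ^ 2 ∧
    (L : ℝ) ≤ (bb m L : ℕ) := by
  refine ⟨max 1 ⌈c⌉₊, fun L hL => ?_⟩
  have h1 : 1 ≤ L := le_trans (le_max_left _ _) hL
  have h2 : c ≤ (L : ℝ) := by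
    have h3 : ⌈c⌉₊ ≤ L := le_trans (le_max_right _ _) hL
    exact (Nat.le_ceil c).trans (by exact_mod_cast h3)
  have h4 : (L : ℝ) ≤ ((bb m L : ℕ) : ℝ) := by
    have h5 : L ≤ bb m L := by
      unfold bb
      calc L = L ^ 1 := (pow_one L).symm
        _ ≤ L ^ (m + 1) := Nat.pow_le_pow_right h1 (by omega)
    exact_mod_cast h5
  refine ⟨h2.trans h4, ?_, h4⟩
  have h0 : (0 : ℝ) ≤ L := Nat.cast_nonneg L
  nlinarith

end Pool.Agent.Helper51.GP
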