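import Pool.Agent.Helper51.GP.B
import Pool.Agent.Helper51.GP.F0
import Pool.Agent.Helper72.GP.Core

/-!
# GP-H2: gluing along the face (proof: `Pool/Agent/Helper72/GP/{Tubes,Glue,Core}.lean`)
-/

set_option autoImplicit false

namespace Pool.Agent.Helper51.GP

open MeasureTheory ProbabilityTheory Filter Pool.Agent.Helper79.GR Pool.Agent.Helper79.GQ
open Pool.Agent.Helper51.NP

variable {Ω : Type*} [MeasurableSpace Ω] {P : Measure Ω} {d : ℕ} {X : ℕ → Edge d → Ω → ℝ}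
  {ν : ℕ → Measure ℝ} {δ : ℕ → ℝ} {a K s : ℝ} {m C : ℕ} {u : F d → ℝ} {v : F d}
  {h : F d →L[ℝ] ℝ}

/-- a fluctuation of size `Λ` below the norm, inside a tube of width `b ^ C * Λ`, `b = bb m L`, of
probability at least `1 / b ^ C` -/
def Flu (P : Measure Ω) (X : ℕ → Edge d → Ω → ℝ) (u : F d → ℝ) (m : ℕ) (h : F d →L[ℝ] ℝ) (v : F d)
    (C L : ℕ) (q : V d) (R : Set (Edge d)) (Λ : ℝ) : Prop :=
  R.Finite ∧ 2 ^ L ≤ Λ ∧ Λ ^ 2 ≤ (bb m L : ℕ) ^ C * h (rv q) ∧ n1 q ≤ Real.exp (C * L) ∧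
  tr v h (rv q) ≤ (bb m L : ℕ) ^ C * Λ ∧
  (∀ e ∈ R, ∀ x ∈ e.1, tr v h (rv x) ≤ (bb m L : ℕ) ^ C * Λ) ∧
  (1 / ((bb m L : ℕ) : ℝ)) ^ C ≤
    P.real {ω | T (cut R (bb m L) (cf (X (bb m L)) ω)) 0 q ≤ u (rv q) - Λ}

theorem glue (hF : Fam P X ν δ a m K u) (hd : 1 ≤ d) (hv : h v = 1) {ρ : F d →L[ℝ] ℝ}
    (hρ : ∀ x, ρ x ≤ u x) {v' : F d} (hv' : ρ v' = 1) (hY : 0 < tr v h v')
    (hr : ∀ κ : ℕ, ∃ C' : ℕ, ∃ L₀ : ℕ, ∀ L : ℕ, L₀ ≤ L → ∀ t : ℝ, 0 ≤ t → t ≤ Real.exp (κ * L) →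
      mm P (X (bb m L)) (fl 1 (t • v')) ≤ t + (bb m L : ℕ) ^ C' * (√t + 1)) (C : ℕ) :
    ∃ L₁ : ℕ, ∀ (L : ℕ) (q : V d) (R : Set (Edge d)) (Λ : ℝ), L₁ ≤ L →
      Flu P X u m h v C L q R Λ → ρ (rv q) ≠ u (rv q) := by
  obtain ⟨L₁, h1⟩ := Pool.Agent.Helper72.GP.glue_core hF hρ hv' hY hr C
  refine ⟨L₁, fun L q R Λ hL hf => ?_⟩
  obtain ⟨f1, f2, f3, f4, -, f6, f7⟩ := hf
  exact h1 L q R Λ hL f1 f2 f3 f4 f6 f7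

end Pool.Agent.Helper51.GP
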