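import Pool.Agent.Helper47.GP.R1

/-!
# GP-R: the rate in the direction of a vertex (proved by helper47)
-/

set_option autoImplicit false

namespace Pool.Agent.Helper51.GP

open MeasureTheory ProbabilityTheory Filter Pool.Agent.Helper79.GR Pool.Agent.Helper79.GQ
open Pool.Agent.Helper51.NP

variable {Ω : Type*} [MeasurableSpace Ω] {P : Measure Ω} {d : ℕ} {X : ℕ → Edge d → Ω → ℝ}
  {ν : ℕ → Measure ℝ} {δ : ℕ → ℝ} {a K s : ℝ} {m C : ℕ} {u : F d → ℝ} {v : F d}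
  {h : F d →L[ℝ] ℝ}

theorem rate (hF : Fam P X ν δ a m K u) (hV : Vtx u v h s) (κ : ℕ) :
    ∃ C : ℕ, 1 ≤ C ∧ ∃ L₀ : ℕ, ∀ L : ℕ, L₀ ≤ L → ∀ t : ℝ, 0 ≤ t → t ≤ Real.exp (κ * L) →
      mm P (X (bb m L)) (fl 1 (t • v)) ≤ t + (bb m L : ℕ) ^ C * (√t + 1) :=
  Pool.Agent.Helper47.GP.rate hF hV κ

end Pool.Agent.Helper51.GP
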