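import Pool.Agent.Helper51.GP.E
import Pool.Agent.Helper51.GP.R
import Pool.Agent.Helper51.GP.G3
import Pool.Agent.Helper51.GP.H1
import Pool.Agent.Helper51.GP.H2
import Pool.Agent.Helper51.NP.D

/-!
# GP-H3: the contradiction (owner: helper51)
-/

set_option autoImplicit false

namespace Pool.Agent.Helper51.GP

open MeasureTheory ProbabilityTheory Filter Pool.Agent.Helper79.GR Pool.Agent.Helper79.GQ
open Pool.Agent.Helper51.NP
open scoped Topology

variable {Ω : Type*} [MeasurableSpace Ω] {P : Measure Ω} {d : ℕ} {X : ℕ → Edge d → Ω → ℝ}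
  {ν : ℕ → Measure ℝ} {δ : ℕ → ℝ} {a K s : ℝ} {m C : ℕ} {u : F d → ℝ} {v : F d}
  {h : F d →L[ℝ] ℝ}

/-- numbers: a constant for `Flu` -/
private theorem nums (m K : ℕ) (hK : 1 ≤ K) (nv : ℝ) (hnv : 0 ≤ nv) (ε : ℝ) (hε : 0 < ε) :
    ∃ C : ℕ, ∃ L₀ : ℕ, ∀ L : ℕ, L₀ ≤ L → ∀ l hq t n : ℝ, 0 < l → l ≤ (1 / 2) ^ L →
      (1 / 4) ^ L ≤ l → 1 / (((bb m L : ℕ) : ℝ) ^ K * l ^ 2) ≤ hq → hq ≤ Real.exp (K * L) →
      t ≤ ((bb m L : ℕ) : ℝ) ^ K / l → n ≤ hq * nv + t →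
      2 ^ L ≤ 1 / l ∧ (1 / l) ^ 2 ≤ ((bb m L : ℕ) : ℝ) ^ C * hq ∧ n ≤ Real.exp (C * L) ∧
      ((bb m L : ℕ) : ℝ) ^ K / l ≤ ((bb m L : ℕ) : ℝ) ^ C * (1 / l) ∧
      (1 / ((bb m L : ℕ) : ℝ)) ^ C ≤ (1 / ((bb m L : ℕ) : ℝ)) ^ K ∧ t ≤ ε * hq := by
  obtain ⟨L₁, hL₁⟩ := bb_small m (2 * K) ε hε
  obtain ⟨k, hk⟩ := exists_nat_ge nv
  set C : ℕ := (m + 1) * K + k + K + 10 with hC
  refine ⟨C, L₁ + 3, fun L hL l hq t n hl hl1 hl2 h1 h2 h3 h4 => ?_⟩
  set B : ℝ := ((bb m L : ℕ) : ℝ) with hB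
  have hL3 : 3 ≤ L := by omega
  have hL1' : (3 : ℝ) ≤ L := by exact_mod_cast hL3
  have hL1 : (1 : ℝ) ≤ L := by linarith
  have hL0 : (0 : ℝ) < L := by linarith
  have hBL : B = (L : ℝ) ^ (m + 1) := by rw [hB]; unfold bb; push_cast; ring
  have hB1 : (1 : ℝ) ≤ B := by rw [hBL]; exact one_le_pow₀ hL1
  have hB0 : (0 : ℝ) < B := by linarith
  have hCr : (C : ℝ) = (m + 1) * K + k + K + 10 := by rw [hC]; push_cast; ring
  have hK' : (1 : ℝ) ≤ K := by exact_mod_cast hK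
  have hk0 : (0 : ℝ) ≤ k := Nat.cast_nonneg k
  have hm0 : (0 : ℝ) ≤ m := Nat.cast_nonneg m
  have hl4 : 1 / l ≤ 4 ^ L := by
    rw [div_le_iff₀ hl]
    have h5 : (4 : ℝ) ^ L * (1 / 4) ^ L = 1 := by
      rw [← mul_pow]; norm_num
    have h6 : (0 : ℝ) < 4 ^ L := by positivity
    nlinarith
  have hq0 : 0 < hq := lt_of_lt_of_le (by positivity) h1
  have hKC : K ≤ C := by rw [hC]; omega
  have hBK : B ^ K ≤ B ^ C := pow_le_pow_right₀ hB1 hKC
  refine ⟨?_, ?_, ?_, ?_, ?_, ?_⟩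
  · rw [le_div_iff₀ hl]
    have h5 : (2 : ℝ) ^ L * (1 / 2) ^ L = 1 := by
      rw [← mul_pow]; norm_num
    have h6 : (0 : ℝ) < 2 ^ L := by positivity
    nlinarith
  · have h5 : (1 / l) ^ 2 = B ^ K * (1 / (B ^ K * l ^ 2)) := by field_simp
    rw [h5]
    exact mul_le_mul hBK h1 (by positivity) (by positivity)
  · -- the size
    have h5 : t ≤ B ^ K * 4 ^ L := by
      refine h3.trans ?_
      rw [div_eq_mul_one_div]
      exact mul_le_mul_of_nonneg_left hl4 (by positivity)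
    have e1 : ∀ x : ℝ, x ≤ Real.exp x := fun x => by linarith [Real.add_one_le_exp x]
    have e3 : (L : ℝ) ≤ Real.exp L := e1 _
    have e4 : (4 : ℝ) ≤ Real.exp 2 := by
      have h6 : (2 : ℝ) ≤ Real.exp 1 := by linarith [Real.add_one_le_exp (1 : ℝ)]
      have h7 : Real.exp 2 = Real.exp 1 * Real.exp 1 := by rw [← Real.exp_add]; norm_num
      rw [h7]
      nlinarith
    have e5 : nv ≤ Real.exp (k * L) := by
      refine hk.trans ((e1 _).trans (Real.exp_le_exp.2 ?_))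
      nlinarith
    have e7 : (4 : ℝ) ^ L ≤ Real.exp (2 * L) := by
      rw [mul_comm (2 : ℝ) L, Real.exp_nat_mul]
      exact pow_le_pow_left₀ (by norm_num) e4 L
    have e8 : B ^ K ≤ Real.exp ((m + 1) * K * L) := by
      have : Real.exp (((m : ℝ) + 1) * K * L) = Real.exp L ^ ((m + 1) * K) := by
        rw [← Real.exp_nat_mul]
        push_cast
        ring_nf
      rw [this, hBL, ← pow_mul]
      exact pow_le_pow_left₀ hL0.le e3 _
    have e9 : hq * nv ≤ Real.exp ((K + k) * L) := by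
      have : Real.exp (((K : ℝ) + k) * L) = Real.exp (K * L) * Real.exp (k * L) := by
        rw [← Real.exp_add]; ring_nf
      rw [this]
      exact mul_le_mul h2 e5 hnv (Real.exp_pos _).le
    have e10 : B ^ K * 4 ^ L ≤ Real.exp (((m + 1) * K + 2) * L) := by
      have h7 : Real.exp ((((m : ℝ) + 1) * K + 2) * L) =
          Real.exp ((m + 1) * K * L) * Real.exp (2 * L) := by
        rw [← Real.exp_add]; ring_nf
      rw [h7]
      exact mul_le_mul e8 e7 (by positivity) (Real.exp_pos _).le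
    have e11 : (2 : ℝ) ≤ Real.exp L := by
      have := Real.add_one_le_exp (L : ℝ)
      linarith
    have e12 : ∀ x : ℝ, x ≤ C - 1 → Real.exp (x * L) ≤ Real.exp ((C - 1) * L) := fun x hx =>
      Real.exp_le_exp.2 (mul_le_mul_of_nonneg_right hx hL0.le)
    have hmK : (0 : ℝ) ≤ (m + 1) * K := by positivity
    calc n ≤ hq * nv + t := h4
      _ ≤ Real.exp ((C - 1) * L) + Real.exp ((C - 1) * L) := by
          refine add_le_add (e9.trans (e12 _ ?_)) ((h5.trans e10).trans (e12 _ ?_))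
          · rw [hCr]; linarith
          · rw [hCr]; linarith
      _ = 2 * Real.exp ((C - 1) * L) := by ring
      _ ≤ Real.exp L * Real.exp ((C - 1) * L) :=
          mul_le_mul_of_nonneg_right e11 (Real.exp_pos _).le
      _ = Real.exp (C * L) := by rw [← Real.exp_add]; ring_nf
  · rw [div_eq_mul_one_div]
    exact mul_le_mul_of_nonneg_right hBK (by positivity)
  · exact pow_le_pow_of_le_one (by positivity) (by rw [div_le_one hB0]; exact hB1) hKC
  · have h5 := hL₁ L (by omega)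
    have h7 : B ^ K / l ≤ ε * (1 / (B ^ K * l ^ 2)) := by
      rw [mul_one_div, div_le_div_iff₀ hl (by positivity)]
      have h8 : B ^ (2 * K) * l ≤ ε := by
        refine le_trans ?_ h5
        exact mul_le_mul_of_nonneg_left hl1 (by positivity)
      calc B ^ K * (B ^ K * l ^ 2) = (B ^ (2 * K) * l) * l := by ring
        _ ≤ ε * l := mul_le_mul_of_nonneg_right h8 hl.le
    exact h3.trans (h7.trans (mul_le_mul_of_nonneg_left h1 hε.le))

/-- the norm is not the maximum of finitely many linear functionals -/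
theorem core (hd : 2 ≤ d) (hF : Fam P X ν δ a m K u) (G : Finset (F d →L[ℝ] ℝ))
    (hle : ∀ ρ ∈ G, ∀ x, ρ x ≤ u x) (hcov : ∀ x, ∃ ρ ∈ G, ρ x = u x) : False := by
  obtain ⟨v, h, s, ε, k, ρ, v', h', s', hcr⟩ := exists_crn hd hF.nrm G hle hcov
  have hprob := (hF.env 1 le_rfl).prob
  have hv : h v = 1 := hcr.vtx.hv
  obtain ⟨C, hC1, L₀, hp⟩ := exists_pack hF hcr.vtx
  obtain ⟨L₁, hrel⟩ := relevance (by omega) hF hv hC1
  obtain ⟨K₂, hK₂, L₂, hgt⟩ := good_tube hF hv hC1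
  obtain ⟨C₂, L₃, hnum⟩ := nums m K₂ hK₂ (nr v) (Finset.sum_nonneg fun i _ => abs_nonneg _) ε
    hcr.epos
  have hgl : ∀ i, ∃ K₁ : ℕ, ∀ (L : ℕ) (q : V d) (R : Set (Edge d)) (Λ : ℝ), K₁ ≤ L →
      Flu P X u m h v C₂ L q R Λ → ρ i (rv q) ≠ u (rv q) := by
    intro i
    refine glue hF (by omega) hv (hcr.le i) (v' := v' i) (hcr.on i) (hcr.off i) ?_ C₂
    intro κ
    obtain ⟨C', _, L', h'⟩ := rate hF (hcr.vtx' i) κ
    exact ⟨C', L', h'⟩
  choose K₁ hK₁ using hgl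
  set L : ℕ := L₀ + L₁ + L₂ + L₃ + Finset.univ.sup K₁ + 1 with hL
  obtain ⟨l, D, E, g, hpk⟩ := hp L (by omega)
  have hED := hrel L (by omega) l D E g hpk
  obtain ⟨q, N, hq1, hq2, hq3, hq4⟩ := hgt L (by omega) l D E g hpk hED
  have hbL : (0 : ℝ) < ((bb m L : ℕ) : ℝ) := by
    have : 0 < bb m L := by unfold bb; positivity
    exact_mod_cast this
  have hq0 : 0 < h (rv q) := by
    refine lt_of_lt_of_le ?_ hq1
    have := hpk.lpos
    positivity
  obtain ⟨n1', n2, n3, n4, n5, n6⟩ := hnum L (by omega) l (h (rv q)) (tr v h (rv q)) (n1 q)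
    hpk.lpos hpk.lup hpk.llo hq1 hq2 hq3 (by
      have h1 := nr_le_tr (v := v) (h := h) (rv q)
      rw [abs_of_pos hq0] at h1
      exact h1)
  obtain ⟨i, hi⟩ := hcr.cov (rv q) n6
  have hKi : K₁ i ≤ Finset.univ.sup K₁ := Finset.le_sup (Finset.mem_univ i)
  refine hK₁ i L q (tub v h (((bb m L : ℕ) : ℝ) ^ K₂ / l) N) (1 / l) (by omega) ?_ hi
  refine ⟨finite_tub _ _ _ _, n1', n2, n3, hq3.trans n4, fun e he x hx => ?_,
    n5.trans (hq4.trans ?_)⟩
  · exact ((he x hx).1).trans n4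
  · refine measureReal_mono (fun ω hω => ?_) (measure_ne_top _ _)
    have h1 : T (cut (tub v h (((bb m L : ℕ) : ℝ) ^ K₂ / l) N) (bb m L)
      (cf (X (bb m L)) ω)) 0 q ≤ g (rv q) - 1 / l := hω
    have h2 := hpk.gle (rv q)
    exact h1.trans (by linarith)

end Pool.Agent.Helper51.GP
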