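import Pool.Agent.Helper51.GP.Defs
import Pool.Agent.Helper85.GP.SlabEnv

/-!
# GP-C3: the slab lemma (helper85; from `Helper19/BK/Slab` and `Helper85/GP/{Slab,SlabEnv}`)

No condition on `g`; for every `x` with `h x = 1`.  Uniform in `h` (`H` bounds the steps of `h`).
-/

set_option autoImplicit false

namespace Pool.Agent.Helper51.GP

open MeasureTheory ProbabilityTheory Filter Pool.Agent.Helper79.GR Pool.Agent.Helper79.GQ
open Pool.Agent.Helper51.NP

/-- the norm of a functional whose steps are bounded by `H` -/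
private theorem C3_norm_le {d : ℕ} (h : F d →L[ℝ] ℝ) {H : ℝ} (hH : 0 ≤ H)
    (hs : ∀ s : St d, |h (rv (sv s))| ≤ H) : ‖h‖ ≤ d * H := by
  refine h.opNorm_le_bound (by positivity) fun y => ?_
  have e1 : h y = ∑ i, y i * h (rv (sv (i, true))) := by
    have e2 := LinearMap.pi_apply_eq_sum_univ (h : F d →ₗ[ℝ] ℝ) y
    rw [ContinuousLinearMap.coe_coe] at e2
    rw [e2]
    refine Finset.sum_congr rfl fun i _ => ?_
    rw [smul_eq_mul]
    congr 2
    funext j
    by_cases hij : i = j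
    · subst hij
      simp [rv, sv]
    · have hji : j ≠ i := fun hh => hij hh.symm
      simp [rv, sv, hij]
  rw [e1, Real.norm_eq_abs]
  refine (Finset.abs_sum_le_sum_abs _ _).trans ?_
  calc ∑ i, |y i * h (rv (sv (i, true)))| ≤ ∑ _i : Fin d, ‖y‖ * H := by
        refine Finset.sum_le_sum fun i _ => ?_
        rw [abs_mul]
        exact mul_le_mul (norm_le_pi_norm y i) (hs _) (abs_nonneg _) (norm_nonneg _)
    _ = d * H * ‖y‖ := by
        rw [Finset.sum_const, Finset.card_univ, Fintype.card_fin, nsmul_eq_mul]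
        ring

theorem slab {Ω : Type*} [MeasurableSpace Ω] (P : Measure Ω) (d : ℕ) (H : ℝ) :
    ∃ C : ℕ, 1 ≤ C ∧ ∀ (X : Edge d → Ω → ℝ) (ν : Measure ℝ) (δ : ℝ) (b : ℕ),
      Env P X ν δ b → 1 ≤ b → ∀ (l : ℝ) (h g : F d →L[ℝ] ℝ) (x : F d), 0 < l → l * b ≤ 1 →
      (∀ s : St d, |h (rv (sv s))| ≤ H) → h x = 1 →
      ∀ n : ℝ, C * wd l b ≤ n →
        ENNReal.ofReal (Real.exp (l * n * (g x - nl P X l x))) ≤ ENNReal.ofReal C *
        ∑' q : {q : V d // |h (rv (wd l b • q)) - n| ≤ C * wd l b},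
          ENNReal.ofReal (Z P X l 0 (wd l b • q.1) * Real.exp (l * g (rv (wd l b • q.1)))) := by
  obtain ⟨K₀, hK₀⟩ : ∃ K₀ : ℝ, K₀ = (2 + d) * (d * |H|) := ⟨_, rfl⟩
  have hK₀0 : 0 ≤ K₀ := by
    rw [hK₀]
    positivity
  obtain ⟨C, hC⟩ := exists_nat_ge (Real.exp (4 * d) + 2 * K₀ + 1)
  have hexp := Real.exp_pos (4 * (d : ℝ))
  have hC1 : (1 : ℝ) ≤ C := by linarith
  refine ⟨C, by exact_mod_cast hC1, ?_⟩
  intro X ν δ b hE hb l h g x hl hlb hs hx n hn
  have hb' : (1 : ℝ) ≤ b := by exact_mod_cast hb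
  have hb0 : (0 : ℝ) < b := by linarith
  have hlb0 : 0 < l * b := mul_pos hl hb0
  have hw : 1 ≤ wd l b := by
    unfold wd
    exact Nat.one_le_iff_ne_zero.2 (Nat.ceil_pos.2 (by positivity)).ne'
  have hw1 : (1 : ℝ) ≤ wd l b := by exact_mod_cast hw
  have hw0 : (0 : ℝ) < wd l b := by linarith
  have hwu : l * b * wd l b ≤ 2 := by
    have h1 : (wd l b : ℝ) ≤ 1 / (l * b) + 1 := (Nat.ceil_lt_add_one (by positivity)).le
    calc l * b * wd l b ≤ l * b * (1 / (l * b) + 1) := mul_le_mul_of_nonneg_left h1 hlb0.le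
      _ = 1 + l * b := by field_simp
      _ ≤ 2 := by linarith
  have hnorm : ‖h‖ ≤ d * |H| :=
    C3_norm_le h (abs_nonneg H) fun s => (hs s).trans (le_abs_self H)
  have hd0 : (0 : ℝ) ≤ d := Nat.cast_nonneg d
  have hdH : 0 ≤ d * |H| := by positivity
  have hn0 : 0 < n := lt_of_lt_of_le (by positivity) hn
  have hK1 : 2 * ‖h‖ * wd l b ≤ K₀ * wd l b := by
    refine mul_le_mul_of_nonneg_right ?_ hw0.le
    rw [hK₀]
    nlinarith
  have hK2 : wd l b * (‖h‖ * d) ≤ K₀ * wd l b := by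
    rw [mul_comm]
    refine mul_le_mul_of_nonneg_right ?_ hw0.le
    rw [hK₀]
    nlinarith [mul_le_mul_of_nonneg_right hnorm hd0]
  have hKn : K₀ * wd l b ≤ n := by
    refine le_trans (mul_le_mul_of_nonneg_right ?_ hw0.le) hn
    linarith
  have key := Helper85.GP.slab_env hE hb0.le hl g h hw hK1 hK2 hn0 hKn x hx
  refine key.trans ?_
  have hc : Real.exp (2 * l * b * (d * wd l b)) ≤ C := by
    have h1 : 2 * l * b * (d * wd l b) ≤ 4 * d := by
      have : 2 * l * b * (d * wd l b) = 2 * d * (l * b * wd l b) := by ring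
      rw [this]
      nlinarith
    have h2 := Real.exp_le_exp.2 h1
    linarith
  refine mul_le_mul' (ENNReal.ofReal_le_ofReal hc) ?_
  refine ENNReal.tsum_mono_subtype (fun q : V d =>
    ENNReal.ofReal (Z P X l 0 (wd l b • q) * Real.exp (l * g (rv (wd l b • q)))))
    (s := {q : V d | |h (rv (wd l b • q)) - n| ≤ 2 * (K₀ * wd l b)})
    (t := {q : V d | |h (rv (wd l b • q)) - n| ≤ C * wd l b}) fun q hq => ?_
  have hq' : |h (rv (wd l b • q)) - n| ≤ 2 * (K₀ * wd l b) := hq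
  have h3 : 2 * (K₀ * wd l b) ≤ C * wd l b := by
    have : 2 * (K₀ * wd l b) = (2 * K₀) * wd l b := by ring
    rw [this]
    exact mul_le_mul_of_nonneg_right (by linarith) hw0.le
  exact hq'.trans h3

end Pool.Agent.Helper51.GP
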