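import Pool.Agent.Helper51.GP.Defs
import Pool.Agent.Helper38.PB.GB
import Pool.Agent.Helper49.PG.GB3

/-!
# GP-B: lower tail inequality (Herbst) with Peierls regularity (owner: helper49)

The number `N` of edges in `S` of a minimal path (for the weights cut off outside of `S`) satisfies
`P (N > max (n, T / a)) ≤ exp (- n)` (`Reg` at `x`, by translation), so
`E (exp (- l T) N) ≤ (B n1 / a + l B n1 + 3) E exp (- l T) ≤ (3 B / a) (n1 + 1) E exp (- l T)`
(take `n = ⌈l B n1⌉`); entropy `≤ l ^ 2 / 2 * B ^ 2 * E (exp (- l T) N)`; so the constant is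
`3 / (2 a) * B ^ 3 ≤ hr a * B ^ 3`.
-/

set_option autoImplicit false

namespace Pool.Agent.Helper51.GP

open MeasureTheory ProbabilityTheory Filter Pool.Agent.Helper79.GR Pool.Agent.Helper79.GQ
open Pool.Agent.Helper51.NP

variable {Ω : Type*} [MeasurableSpace Ω] {P : Measure Ω} {d : ℕ} {X : Edge d → Ω → ℝ}
  {ν : Measure ℝ} {a δ b B l : ℝ}

theorem hr_pos (hR : Reg P X a) : 0 < hr a := by
  exact Pool.Agent.Helper49.GP.hr_pos hR

theorem herbst (h : Env P X ν δ b) (hR : Reg P X a) (hb : 1 ≤ b) (hB : b ≤ B)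
    (S : Set (Edge d)) (hl : 0 ≤ l) (hl1 : l ≤ 1) (x y : V d) :
    Zc P X S B l x y ≤
      Real.exp (-(l * mc P X S B x y) + hr a * B ^ 3 * l ^ 2 * (n1 (y - x) + 1)) := by
  exact Pool.Agent.Helper38.PB.herbst_GP h hR hb hB S hl hl1 x y

theorem herbst_Z (h : Env P X ν δ b) (hR : Reg P X a) (hb : 1 ≤ b) (hl : 0 ≤ l) (hl1 : l ≤ 1)
    (v : V d) :
    Z P X l 0 v ≤ Real.exp (-(l * mm P X v) + hr a * b ^ 3 * l ^ 2 * (n1 v + 1)) := by
  exact Pool.Agent.Helper49.GP.herbst_Z' h v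
    (fun t ht ht1 => herbst h hR hb le_rfl Set.univ ht ht1 0 v) hl hl1

theorem mc_le_of_prob (h : Env P X ν δ b) (hR : Reg P X a) (hb : 1 ≤ b) (hB : b ≤ B)
    (S : Set (Edge d)) (x y : V d) (z p : ℝ) (hp : 0 < p)
    (hpz : p ≤ P.real {ω | T (cut S B (cf X ω)) x y ≤ z}) :
    mc P X S B x y ≤ z + √(4 * hr a * B ^ 3 * (n1 (y - x) + 1) * Real.log (1 / p)) := by
  exact Pool.Agent.Helper49.GP.mc_le_of_prob' h hR hb hB S x y
    (fun t ht ht1 => herbst h hR hb hB S ht ht1 x y) z p hp hpz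

theorem mm_le_of_Z (h : Env P X ν δ b) (hR : Reg P X a) (hb : 1 ≤ b) (hl : 0 < l) (hl1 : l ≤ 1)
    (v : V d) (z c : ℝ) (hc : 0 < c) (hz : c ≤ Z P X l 0 v * Real.exp (l * z)) :
    mm P X v ≤ z + hr a * b ^ 3 * l * (n1 v + 1) + Real.log (1 / c) / l := by
  exact Pool.Agent.Helper49.GP.mm_le_of_Z' h hl hl1 v
    (fun t ht ht1 => herbst h hR hb le_rfl Set.univ ht ht1 0 v) z c hc hz

theorem pos_part (h : Env P X ν δ b) (hR : Reg P X a) (hb : 1 ≤ b) (x y : V d) :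
    ∫ ω, max (T (cf X ω) x y - mm P X (y - x)) 0 ∂P ≤
      4 * √((hr a * b ^ 3 + 1) * (n1 (y - x) + 1)) := by
  exact Pool.Agent.Helper49.GP.pos_part' h hR hb x y
    (fun t ht ht1 => herbst h hR hb le_rfl Set.univ ht ht1 0 (y - x))

/-- exponential decay with constants which do not depend on `δ` -/
theorem Z_le (h : Env P X ν δ b) (hR : Reg P X a) (hl : 0 ≤ l) (hl1 : l ≤ 1) (x : V d) :
    Z P X l 0 x ≤ 2 * Real.exp (-(l * (a * n1 x))) := by
  exact Pool.Agent.Helper49.GP.Z_le h hR hl hl1 x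

theorem le_nl (h : Env P X ν δ b) (hR : Reg P X a) (hl : 0 < l) (hl1 : l ≤ 1) (x : F d) :
    a * nr x ≤ nl P X l x := by
  exact Pool.Agent.Helper49.GP.le_nl h hR hl hl1 x

/-- the first moment of the number of edges -/
theorem mean_length (h : Env P X ν δ b) (hR : Reg P X a) (hB : b ≤ B) (hB1 : 1 ≤ B)
    (S : Set (Edge d)) (x y : V d) :
    ∃ N : Ω → ℝ, Integrable N P ∧ ∫ ω, N ω ∂P ≤ mc P X S B x y / a + 3 ∧
      ∀ ω w, pos x w = y → cost (cut S B (cf X ω)) x w = T (cut S B (cf X ω)) x y →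
        (eds x w).Nodup → (w.length : ℝ) ≤ N ω := by
  exact Pool.Agent.Helper49.GP.mean_length h hR hB hB1 S x y

end Pool.Agent.Helper51.GP
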