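import Pool.Agent.Helper51.GP.S
import Pool.Agent.Helper69.PG.Pack2

/-!
# GP-E: good pairs exist at all scales (owner: helper69 / helper54)

`b = bb m L`; `u_le_nl` with `κ = 3`, so `u - b ^ C l nr ≤ nl ≤ u` and the geometry of
`Helper19/PG/Vert` applies to `n = nl P (X b) l`; pigeonhole for
`D k η = DG (nl P (X b) (2 ^ (-k))) v h η`, `A = 2 d + 2`, `L ≤ k ≤ 2 L`; the constants of the
pigeonhole do not depend on `L`.
-/

set_option autoImplicit false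

namespace Pool.Agent.Helper51.GP

open MeasureTheory ProbabilityTheory Filter Pool.Agent.Helper79.GR Pool.Agent.Helper79.GQ
open Pool.Agent.Helper51.NP

variable {Ω : Type*} [MeasurableSpace Ω] {P : Measure Ω} {d : ℕ} {X : ℕ → Edge d → Ω → ℝ}
  {ν : ℕ → Measure ℝ} {δ : ℕ → ℝ} {a K s : ℝ} {m C : ℕ} {u : F d → ℝ} {v : F d}
  {h : F d →L[ℝ] ℝ}

theorem exists_pack (hF : Fam P X ν δ a m K u) (hV : Vtx u v h s) :
    ∃ C : ℕ, 1 ≤ C ∧ ∃ L₀ : ℕ, ∀ L : ℕ, L₀ ≤ L →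
      ∃ (l D E : ℝ) (g : F d →L[ℝ] ℝ), Pack P X u v h C L (bb m L) l D E g :=
  Pool.Agent.Helper69.PG2.exists_pack hF hV

end Pool.Agent.Helper51.GP
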