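import Pool.Agent.Helper46.PG.S

/-!
# GP-S: the norm `u` and the annealed norms (owner: helper46)

Separation: let `h` be linear with `max {h | nl ≤ 1} = 1`.  Slab lemma with `g = h`,
`n = 1 / l ^ 2`: some `q` with `n1 q ≤ A n` has `Z(0, q) exp (l h q) ≥ exp (- A) l ^ (4 d)`, so by
Herbst `mm q ≤ h q + b ^ 4 / l`, by `Fam.low` `u q ≤ h q + b ^ 4 / l ≤ (1 + 2 b ^ 4 l) h q`.  If
`u x > (1 + ε) nl x`, take `ρ ≤ u` with `ρ x = u x`, `h = ρ / max {ρ | nl ≤ 1}`: contradiction.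
The proofs are in `Pool/Agent/Helper46/PG/{Sep,Cell,S}.lean`.
-/

set_option autoImplicit false

namespace Pool.Agent.Helper51.GP

open MeasureTheory ProbabilityTheory Filter Pool.Agent.Helper79.GR Pool.Agent.Helper79.GQ
open Pool.Agent.Helper51.NP

variable {Ω : Type*} [MeasurableSpace Ω] {P : Measure Ω} {d : ℕ} {X : ℕ → Edge d → Ω → ℝ}
  {ν : ℕ → Measure ℝ} {δ : ℕ → ℝ} {a K s : ℝ} {m C : ℕ} {u : F d → ℝ} {v : F d}
  {h : F d →L[ℝ] ℝ}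

theorem u_le_nl (hF : Fam P X ν δ a m K u) (κ : ℕ) : ∃ C : ℕ, 1 ≤ C ∧ ∃ L₀ : ℕ,
    ∀ L b : ℕ, L₀ ≤ L → L ^ (m + 1) ≤ b → ∀ l : ℝ, Real.exp (-(κ * L)) ≤ l →
      l * b ^ C ≤ 1 → ∀ x, u x ≤ nl P (X b) l x + b ^ C * l * nr x :=
  Pool.Agent.Helper46.PG.u_le_nl hF κ

end Pool.Agent.Helper51.GP
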